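import Pool.Agent.Y797.TW.Unr
import Pool.Agent.Y797.TW.Gen
import Pool.Agent.Y797.TW.Dom
set_option autoImplicit false

/-!
The regulator on `H^d(𝒳, ℚ(d))`, `d = dim 𝒳 = n + 1`, for models `𝒳` of the hypersurfaces
`λ g ∏_j ∏_i (x_j - φ_{j,i}(x_{j+1}, ..., x_n)) = 1` of dimension `n` over an arbitrary number
field, with arbitrary integral polynomials `φ_{j,i}` (different for every `j`; their graphs may
cross and touch each other in any way) and an arbitrary integral polynomial `g ≠ 0`, for all large
algebraic integers `λ`: the `∏_j r_j` symbols with the entries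
`(x_j - φ_{j,k_j + 1}) / (x_j - φ_{j,0})` are unramified at all discrete valuations, and their
regulators are linearly independent.
-/

namespace Pool.Agent.Results.MP_51fc19_nt.GraphTowers

open Pool.Agent.TH826.MK (KQ symb Unramified Torus)

open Pool.Agent.Y797.TW

open MvPolynomial

section defs

variable {K : Type*} [Field K] {n : ℕ}

/-- At all complex points (over `σ`) of the hypersurface the gradient of the equation is not
zero. -/
def Smooth (σ : K →+* ℂ) (A : Tower K n) (lam : K) : Prop :=
  ∀ x : Fin (n + 1) → ℂ, eval₂ σ x (A.eqn lam) = 0 → ∃ j, eval₂ σ x (pderiv j (A.eqn lam)) ≠ 0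

/-- If `n ≥ 1`, `g` does not contain the variable `x_0` and is not divisible by all of the
polynomials `x_n - φ_{n,i}` (where the `φ_{n,i}` are constants), then the coordinate ring of the
hypersurface is a domain. -/
def Domain (A : Tower K n) (lam : K) : Prop :=
  1 ≤ n → 0 ∉ A.g.vars → (∃ i, ¬ A.fac (Fin.last n) i ∣ A.g) → IsDomain (A.CRing lam)

/-- The symbols have unramified images in `K_{n+1} ⊗ ℚ` of all fields `L` with a homomorphism from
the coordinate ring to `L` (for example of the function field of the hypersurface). -/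
def UnramifiedSymbols.{u, v} {K : Type u} [Field K] {n : ℕ} (A : Tower K n) (lam : K) : Prop :=
  ∀ (L : Type v) [Field L] (f : A.CRing lam →+* L) (k : ∀ j, Fin (A.r j)),
    KQ.map (n + 1) f (symb (A.ent lam k)) ∈ Unramified L (n + 1)

/-- The torus lies in the complex points over `σ`. -/
def Over (σ : K →+* ℂ) (A : Tower K n) (lam : K) (Γ : Torus (A.CRing lam) n) : Prop :=
  ∀ θ (x : K), Γ.e θ (A.mkC lam (C x)) = σ x

/-- The matrix of the regulators of the symbols on the tori `Γ_t`. -/
noncomputable def regMat (A : Tower K n) (lam : K)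
    (Γ : (∀ j, Fin (A.r j)) → Torus (A.CRing lam) n) :
    Matrix (∀ j, Fin (A.r j)) (∀ j, Fin (A.r j)) ℝ :=
  Matrix.of fun t k => (Γ t).reg (symb (A.ent lam k))

/-- There are `∏_j r_j` tori of dimension `n` in the complex points (over `σ`) of the hypersurface,
such that the determinant of the regulators of the `∏_j r_j` symbols on the tori does not
vanish. -/
def IndependentRegulators (σ : K →+* ℂ) (A : Tower K n) (lam : K) : Prop :=
  ∃ Γ : (∀ j, Fin (A.r j)) → Torus (A.CRing lam) n,
    (∀ t, Over σ A lam (Γ t)) ∧ (regMat A lam Γ).det ≠ 0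

end defs

/-- Let `σ` be a complex embedding of the number field `K`. For `0 ≤ j ≤ n` let `r_j ≥ 0`, and let
`φ_{j,0}, ..., φ_{j,r_j}` be different polynomials in the variables `x_{j+1}, ..., x_n` (constants for
`j = n`) whose coefficients are algebraic integers of `K`, and let `g ≠ 0` be a polynomial in
`x_0, ..., x_n` whose coefficients are algebraic integers of `K`. There is a constant `C` such that
for all algebraic integers `λ` of `K` with `|σ λ| ≥ C` the following holds for the hypersurface
`λ g ∏_j ∏_i (x_j - φ_{j,i}) = 1` of dimension `n`: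

the hypersurface is smooth (over `σ`); if `n ≥ 1` and `g` does not contain the variable `x_0` and is
not divisible by all `x_n - φ_{n,i}` (for example, `g = 1`), its coordinate ring is a domain; for all
`k = (k_0, ..., k_n)`, `0 ≤ k_j < r_j`, the symbol
`{(x_0 - φ_{0,k_0+1})/(x_0 - φ_{0,0}), ..., (x_n - φ_{n,k_n+1})/(x_n - φ_{n,0})}` in `K_{n+1} ⊗ ℚ` of
the coordinate ring has an unramified image in `K_{n+1} ⊗ ℚ` of every field `L` with a homomorphism
from the coordinate ring to `L`; and there are `∏_j r_j` tori of dimension `n` in the complex points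
(over `σ`) of the hypersurface such that the determinant of the regulators of these `∏_j r_j` symbols
on the tori does not vanish. -/
theorem result.{u, v} (n : ℕ) (K : Type u) [Field K] [NumberField K] (σ : K →+* ℂ)
    (A : Tower K n) (hG : A.Graphs) (hI : A.Integral) :
    ∃ C : ℝ, ∀ lam : K, IsIntegral ℤ lam → C ≤ ‖σ lam‖ →
      Smooth σ A lam ∧ Domain A lam ∧ UnramifiedSymbols.{u, v} A lam ∧
      IndependentRegulators σ A lam := by
  obtain ⟨Λ, hΛ1, hΛ⟩ := exists_tori σ hG
  obtain ⟨Λ', hΛ'1, hΛ'⟩ := exists_smooth A σ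
  refine ⟨max Λ Λ', fun lam hlam hl => ?_⟩
  have hl1 := (le_max_left _ _).trans hl
  have hl2 := (le_max_right _ _).trans hl
  have hl0 : lam ≠ 0 := by
    rintro rfl
    rw [map_zero, norm_zero] at hl1
    linarith
  refine ⟨hΛ' lam hl2, ?_, fun L _ f k => symb_mem_unramified f hG hI hlam k, hΛ lam hl1⟩
  intro hn hg hi
  obtain ⟨m, rfl⟩ : ∃ m, n = m + 1 := ⟨n - 1, by omega⟩
  obtain ⟨i, hi⟩ := hi
  exact isDomain A hG hl0 hg hi

end Pool.Agent.Results.MP_51fc19_nt.GraphTowers
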